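import Mathlib
import Pool.Agent.P.MP_230bb5_al.Defs
import Pool.Agent.P.MP_230bb5_al.NMain

set_option autoImplicit false

open Pool.Agent.P.MP_230bb5_al

namespace Pool.Agent.Results.MP_230bb5_al.NilpotentBySemisimple

/-- If a finite group G has a nilpotent normal subgroup P such that G / P is a direct product of
nonabelian simple groups, then the formation generated by G has finitely many subformations. -/
theorem result (G : Type) [Group G] [Finite G] (P : Subgroup G) [P.Normal] [Group.IsNilpotent P]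
    (k : ℕ) (S : Fin k → Type) [∀ a, Group (S a)] [∀ a, IsSimpleGroup (S a)]
    (hS : ∀ a, ∃ x y : S a, x * y ≠ y * x) (hq : Nonempty (G ⧸ P ≃* ∀ a, S a)) :
    (subformations G).Finite := by
  obtain ⟨e⟩ := hq
  obtain ⟨c, hc⟩ := (Subgroup.isNilpotent_iff_lowerCentralSeries P).1 inferInstance
  have hk : (e.toMonoidHom.comp (QuotientGroup.mk' P)).ker = P := by
    ext x
    simp
  refine NS.finite_sub (fun a => ?_) (e.toMonoidHom.comp (QuotientGroup.mk' P))
    (e.surjective.comp (QuotientGroup.mk'_surjective _)) (c := c) (by rw [hk, hc])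
  refine (inferInstance : ⁅(⊤ : Subgroup (S a)), (⊤ : Subgroup (S a))⁆.Normal).eq_bot_or_eq_top.resolve_left
    fun h => ?_
  obtain ⟨x, y, hxy⟩ := hS a
  have h1 := Subgroup.commutator_mem_commutator (Subgroup.mem_top x) (Subgroup.mem_top y)
  rw [h, Subgroup.mem_bot, commutatorElement_eq_one_iff_mul_comm] at h1
  exact hxy h1

/-- The posed instance (not claimed separately): P = G₂ is a p-group, hence nilpotent, and
the quotient is the product of two copies of the alternating group of degree 5. -/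
theorem posed (p : ℕ) (hp : p.Prime) (G : Type) [Group G] [Finite G] (G₁ G₂ : Subgroup G)
    [G₁.Normal] [G₂.Normal] (_h₁ : ⊥ < G₁) (_h₁₂ : G₁ < G₂) (_h₂ : G₂ < ⊤)
    (_c₁ : ∀ x ∈ G₁, ∀ y ∈ G₁, x * y = y * x) (e₁ : ∀ x ∈ G₁, x ^ p = 1)
    (_c₂ : ∀ x ∈ G₂, ∀ y ∈ G₂, x * y * x⁻¹ * y⁻¹ ∈ G₁) (e₂ : ∀ x ∈ G₂, x ^ p ∈ G₁)
    (hq : Nonempty (G ⧸ G₂ ≃* alternatingGroup (Fin 5) × alternatingGroup (Fin 5)))
    (_m₁ : ∀ N : Subgroup G, N.Normal → N ≤ G₁ → N = ⊥ ∨ N = G₁)
    (_m₂ : ∀ N : Subgroup G, N.Normal → G₁ ≤ N → N ≤ G₂ → N = G₁ ∨ N = G₂) :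
    (subformations G).Finite := by
  obtain ⟨e⟩ := hq
  have : Fact p.Prime := ⟨hp⟩
  have hP : IsPGroup p G₂ := fun x => ⟨2, Subtype.ext (by
    simpa [pow_two, pow_mul] using e₁ _ (e₂ x x.2))⟩
  have := hP.isNilpotent
  refine result G G₂ 2 (fun _ => alternatingGroup (Fin 5)) (fun _ => by decide) ⟨e.trans ?_⟩
  exact MulEquiv.symm { finTwoArrowEquiv _ with map_mul' := fun _ _ => rfl }

end Pool.Agent.Results.MP_230bb5_al.NilpotentBySemisimple
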